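import Mathlib

set_option autoImplicit false
set_option linter.unusedVariables false

/-! # Project OD (MP_e0fa86_co): almost regular off-diagonal Ramsey graphs in the range of Spencer

THEOREM.  For all `s ≥ 3`, `t ≥ 2` and `n ≤ (t/(40000 s log t))^((s+1)/2)` there is an almost regular `(s,t;n)`-graph.

METHOD.  Random lift of `K_m`: the vertices are `m` fibres of size `r`, and between two fibres there is a uniformly random
perfect matching (a permutation), independent for different pairs of fibres.  The graph is `(m-1)`-regular, and it stays almost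
regular when vertices of one fibre are deleted.  Lopsided local lemma for partial matchings (ND, NM, LL) for the events
`K_s` and single avoided cells.  Switching (SA, SB, ME): conditional on being `K_s`-free and on avoiding some cells of a
thin set `T`, the next cell of `T` is present with probability at least `1/(2r)`; so `T` is independent with probability at
most `(1 - 1/(2r))^(e(T))` (MI), and the union bound works (EX).

Each module XX: prove `theorem hXX : XX` in your own file, `import Pool.Agent.Helper95.OD.St`.  Earlier statements are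
hypotheses of the statement (intro them). -/

namespace Pool.Agent.Helper95.OD

open Finset
open scoped Classical

noncomputable section

/-- pairs of different fibres -/
abbrev Pr (m : ℕ) : Type := {e : Fin m × Fin m // e.1 < e.2}

/-- vertices: fibre and place in the fibre -/
abbrev Vx (m r : ℕ) : Type := Fin m × Fin r

/-- cells: a pair of fibres, a row and a column; a cell is a possible edge -/
abbrev Cl (m r : ℕ) : Type := Pr m × Fin r × Fin r

/-- configurations: a permutation for every pair of fibres -/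
abbrev Cfg (m r : ℕ) : Type := Pr m → Equiv.Perm (Fin r)

section defs

variable {m r : ℕ}

/-- the end of a cell in the lower fibre -/
def lo (c : Cl m r) : Vx m r := (c.1.1.1, c.2.1)

/-- the end of a cell in the higher fibre -/
def hi (c : Cl m r) : Vx m r := (c.1.1.2, c.2.2)

/-- the cell is present -/
def Pres (σ : Cfg m r) (c : Cl m r) : Prop := σ c.1 c.2.1 = c.2.2

/-- all cells of `M` are present -/
def Ev (M : Finset (Cl m r)) : Finset (Cfg m r) := univ.filter (fun σ => ∀ c ∈ M, Pres σ c)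

/-- no set of the family `B` is present -/
def Av (B : Finset (Finset (Cl m r))) : Finset (Cfg m r) :=
  univ.filter (fun σ => ∀ N ∈ B, ∃ c ∈ N, ¬ Pres σ c)

/-- two cells in conflict: same pair of fibres, different, same row or same column -/
def Cc (a b : Cl m r) : Prop := a.1 = b.1 ∧ a ≠ b ∧ (a.2.1 = b.2.1 ∨ a.2.2 = b.2.2)

/-- two sets of cells in conflict -/
def CC (M N : Finset (Cl m r)) : Prop := ∃ a ∈ M, ∃ b ∈ N, Cc a b

/-- at most one cell in every pair of fibres -/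
def Tr (M : Finset (Cl m r)) : Prop := ∀ a ∈ M, ∀ b ∈ M, a.1 = b.1 → a = b

/-- all cells with both ends in `X` -/
def cells (X : Finset (Vx m r)) : Finset (Cl m r) := univ.filter (fun c => lo c ∈ X ∧ hi c ∈ X)

/-- at most one vertex in each fibre -/
def Tv (X : Finset (Vx m r)) : Prop := ∀ u ∈ X, ∀ v ∈ X, u.1 = v.1 → u = v

/-- thin: at most `r/16` vertices in each fibre -/
def Thin (T : Finset (Vx m r)) : Prop := ∀ i : Fin m, 16 * (T.filter (fun v => v.1 = i)).card ≤ r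

/-- the weight of a set of cells -/
def wt (N : Finset (Cl m r)) : ℝ := (2 / r) ^ N.card

/-- the switch, which makes `c` present -/
def Sw (c : Cl m r) (σ : Cfg m r) : Cfg m r :=
  Function.update σ c.1 (Equiv.swap (σ c.1 c.2.1) c.2.2 * σ c.1)

/-- the graph of a configuration -/
def Gr (σ : Cfg m r) : SimpleGraph (Vx m r) where
  Adj u v := ∃ c : Cl m r, Pres σ c ∧ ((lo c = u ∧ hi c = v) ∨ (lo c = v ∧ hi c = u))
  symm := ⟨fun u v ⟨c, h, h'⟩ => ⟨c, h, h'.symm⟩⟩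
  loopless := ⟨fun u ⟨c, _, h⟩ => by
    have h1 : lo c = hi c := by
      rcases h with ⟨a, b⟩ | ⟨a, b⟩
      · rw [a, b]
      · rw [a, b]
    exact absurd (congrArg Prod.fst h1) (ne_of_lt c.1.2)⟩

end defs

/-- the family of all possible cliques with `s` vertices (as sets of cells) -/
def KB (m r s : ℕ) : Finset (Finset (Cl m r)) :=
  (((univ : Finset (Vx m r)).powersetCard s).filter Tv).image cells

/-- cliques and the single cells of `A` -/
def Fam (m r s : ℕ) (A : Finset (Cl m r)) : Finset (Finset (Cl m r)) :=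
  KB m r s ∪ A.image (fun c => {c})

/-- size condition -/
def Hy (m r s : ℕ) : Prop :=
  1 ≤ m ∧ 3 ≤ s ∧ 16 ≤ r ∧ 64 * 2 ^ (s.choose 2) * (m * r) ^ (s - 2) ≤ r ^ (s.choose 2 - 1)

end

/-! ## Part 1: local lemma for partial matchings -/

/-- ND (negative dependence for one cell, 80 lines).
PROOF.  `c = (e, x, y)`.  For every column `y'` which is not the column of a cell of `M` in the pair `e` (at least
`r - |{b ∈ M : b.1 = e}|` choices) the map `σ ↦ σ'`, `σ' e = swap y y' * σ e` (`σ' = Function.update σ e ..`), is injective from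
`Av B ∩ Ev (insert c M)` to `{σ' ∈ Av B ∩ Ev M : σ' e x = y'}`, and these target sets are disjoint for different `y'`.
`σ' ∈ Ev M`: a cell `b = (e, x1, y1)` of `M` has `x1 ≠ x`, `y1 ≠ y` (no conflict with `c`, `c ∉ M`), `y1 ≠ y'`, so `σ' e x1 = y1`.
`σ' ∈ Av B`: suppose all cells of `N ∈ B` are present in `σ'`; a cell `b = (e, x1, y1)` of `N`: if `x1 = x` then `y1 = y'` and, as `b` has
no conflict with `c`, `b = c`, `y' = y`, `σ' = σ`; if `x1 ≠ x` then `y1 ≠ y`, and `y1 ≠ y'` (`y1 = y'` gives `σ e x1 = y = σ e x`), so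
`σ e x1 = y1`.  So all cells of `N` are present in `σ`, contradiction. -/
def ND : Prop := ∀ (m r : ℕ) (B : Finset (Finset (Cl m r))) (M : Finset (Cl m r)) (c : Cl m r),
  (∀ N ∈ B, ∀ b ∈ N, ¬ Cc c b) → (∀ b ∈ M, ¬ Cc c b) → c ∉ M →
  (Av B ∩ Ev (insert c M)).card * (r - (M.filter (fun b => b.1 = c.1)).card) ≤
    (Av B ∩ Ev M).card

/-- NM (sets of cells, 50 lines).
PROOF.  (i) Induction on `M` with `ND` (`insert c M`, `Tr`: no cell of `M` is in the pair `c.1`, so the factor is `r`).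
(ii) `ND` for `a` and `insert b M` (factor `r - 1`: only `b` is in the pair `a.1`), then for `b` and `M` (factor `r`), then (i). -/
def NM : Prop := ND → ∀ (m r : ℕ) (B : Finset (Finset (Cl m r))),
  (∀ M : Finset (Cl m r), Tr M → (∀ N ∈ B, ¬ CC M N) →
    (Av B ∩ Ev M).card * r ^ M.card ≤ (Av B).card) ∧
  (∀ (M : Finset (Cl m r)) (a b : Cl m r), Tr M → (∀ x ∈ M, x.1 ≠ a.1) → a.1 = b.1 →
    a.2.1 ≠ b.2.1 → a.2.2 ≠ b.2.2 → (∀ N ∈ B, ¬ CC (insert a (insert b M)) N) →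
    (Av B ∩ Ev (insert a (insert b M))).card * (r ^ M.card * (r * (r - 1))) ≤ (Av B).card)

/-- LL (local lemma, 100 lines; uses `NM` (i)).
PROOF.  `0 ≤ wt N < 1` for `N ∈ B` (`r ≥ 3`, `N` not empty).  First part by strong induction on `|S|`.  `S₁ = {N' ∈ S : CC N N'}`,
`S₂` = the rest.  `|Av S ∩ Ev N| ≤ |Av S₂ ∩ Ev N| ≤ r^(-|N|) |Av S₂|` (`NM`).  Adding the members of `S₁` to `S₂` one after the other
(`Av (insert N' S') = Av S' \ Ev N'`, and `|Av S' ∩ Ev N'| ≤ wt N' |Av S'|` by induction if `S' ⊂ S`, `N' ∉ S'`) gives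
`|Av S| ≥ ∏_(N' ∈ S₁) (1 - wt N') |Av S₂| ≥ ∏_(N' ∈ B, CC N N') (1 - wt N') |Av S₂| ≥ 2^(-|N|) |Av S₂|`.  So
`|Av S ∩ Ev N| ≤ r^(-|N|) 2^|N| |Av S| = wt N |Av S|`.  Second part: add the members of `U` to `S` one after the other. -/
def LLc : Prop := ∀ (m r : ℕ) (B : Finset (Finset (Cl m r))), 3 ≤ r → (∀ N ∈ B, Tr N) →
  (∀ N ∈ B, 1 ≤ N.card) →
  (∀ N ∈ B, 1 ≤ 2 ^ N.card * ∏ N' ∈ B.filter (fun N' => CC N N'), (1 - wt N')) →
  (∀ S ⊆ B, ∀ N ∈ B, ((Av S ∩ Ev N).card : ℝ) ≤ wt N * (Av S).card) ∧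
  (∀ S ⊆ B, ∀ U ⊆ B, (∏ N ∈ U, (1 - wt N)) * ((Av S).card : ℝ) ≤ (Av (S ∪ U)).card)

def LL : Prop := ND → NM → LLc

/-! ## Part 2: counting -/

/-- CU (40 lines).  The number of `s`-sets containing two given vertices is at most `(mr)^(s-2)`.
PROOF.  `X ↦ X \ {u, v}` is injective into the sets of size `s - 2`; `Nat.choose_le_pow` (or `s < 2`: there is no such set). -/
def CU : Prop := ∀ (m r s : ℕ) (u v : Vx m r), u ≠ v →
  (((univ : Finset (Vx m r)).powersetCard s).filter (fun X => u ∈ X ∧ v ∈ X)).card ≤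
    (m * r) ^ (s - 2)

/-- CT (60 lines).  PROOF.  `c ↦ {lo c, hi c}` is a bijection from `cells X` to the 2-subsets of `X` (the fibres of two different vertices
of `X` are different, so they can be ordered); cells of `X` in the same pair of fibres have the same ends. -/
def CT : Prop := ∀ (m r s : ℕ) (X : Finset (Vx m r)), Tv X → X.card = s →
  Tr (cells X) ∧ (cells X).card = s.choose 2

/-- CB (60 lines; uses `CU`).
PROOF.  `N = cells X`, `b ∈ cells X`, `Cc c b`: `b.1 = c.1` and either `lo b = lo c` (then `X` contains `lo c` and `(c.1.1.2, y')` for one of the `r`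
columns `y'`), or `hi b = hi c` (then `X` contains `hi c` and `(c.1.1.1, x')`).  Union bound with `CU`. -/
def CB : Prop := CU → ∀ (m r s : ℕ) (c : Cl m r),
  ((KB m r s).filter (fun N => ∃ b ∈ N, Cc c b)).card ≤ 2 * (r * (m * r) ^ (s - 2))

/-- EC (50 lines).  PROOF.  `a_i = |{v ∈ T : v.1 = i}|`.  `|T|² = 2 |cells T| + ∑ a_i²` (ordered pairs of vertices of `T`: same fibre, or
`(lo c, hi c)`, or `(hi c, lo c)` for a cell `c`), `16 ∑ a_i² ≤ r ∑ a_i = r |T|`. -/
def EC : Prop := ∀ (m r : ℕ) (T : Finset (Vx m r)), Thin T →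
  16 * T.card ^ 2 ≤ 32 * (cells T).card + r * T.card

/-- PC (product for one cell, 90 lines; uses `CT`, `CB`).
PROOF.  `∏ (1 - w) ≥ 1 - ∑ w` for `0 ≤ w ≤ 1` (induction).  `∑ wt` over the members of `Fam m r s A` which contain a cell in conflict with
`c`: single cells `{b}`, `b ∈ A ⊆ cells T`: `b = (c.1, c.2.1, y')` with `(c.1.1.2, y') ∈ T`: at most `r/16`; or `b = (c.1, x', c.2.2)` with
`(c.1.1.1, x') ∈ T`: at most `r/16`; together `≤ (r/8)(2/r) = 1/4`.  Members of `KB`: at most `2 r (mr)^(s-2)` (`CB`), each of weight `(2/r)^C`,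
`C = s choose 2` (`CT`): together `≤ 2 · 2^C (mr)^(s-2)/r^(C-1) ≤ 1/32` by `Hy`. -/
def PC : Prop := CU → CT → CB → ∀ (m r s : ℕ), Hy m r s → ∀ (T : Finset (Vx m r)), Thin T →
  ∀ A ⊆ cells T, ∀ c : Cl m r,
  1 / 2 ≤ ∏ N ∈ (Fam m r s A).filter (fun N => ∃ b ∈ N, Cc c b), (1 - wt N)

/-- PM (50 lines; uses `PC`, `CT`).
PROOF.  `0 ≤ wt N ≤ 1` for `N ∈ Fam m r s A`; the set `{N : CC M N}` is the union over `c ∈ M` of the sets of `PC` and the factors are in `[0,1]`,
so the product over the union is at least the product of the products.  The other statements: `CT`, `C = s choose 2 ≥ 3`. -/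
def PMc : Prop := ∀ (m r s : ℕ), Hy m r s → ∀ (T : Finset (Vx m r)), Thin T →
  ∀ A ⊆ cells T, (∀ N ∈ Fam m r s A, Tr N ∧ 1 ≤ N.card ∧ 0 ≤ wt N ∧ wt N ≤ 1 / 2) ∧
  ∀ M : Finset (Cl m r),
  (1 / 2) ^ M.card ≤ ∏ N ∈ (Fam m r s A).filter (fun N => CC M N), (1 - wt N)

def PM : Prop := CU → CT → CB → PC → PMc

/-! ## Part 3: switching -/

/-- SA (50 lines).  PROOF.  `Sw c σ ∈ Ev {c}`, and `σ` is determined by `Sw c σ` and `σ c.1 c.2.1`
(`σ c.1 = swap (σ c.1 c.2.1) c.2.2 * (Sw c σ) c.1`). -/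
def SA : Prop := ∀ (m r : ℕ) (B : Finset (Finset (Cl m r))) (c : Cl m r),
  ((Av B).filter (fun σ => Sw c σ ∈ Av B)).card ≤ r * (Av B ∩ Ev {c}).card

/-- SB (bad switches, 90 lines; uses `CT`).
PROOF.  `c = (e, x, y)`.  Some `N ∈ Fam` is present in `σ' = Sw c σ` but not in `σ`: a cell `d ∈ N` is present in `σ'` and not in `σ`, so `d.1 = e`,
`σ e x ≠ y` (otherwise `σ' = σ`), and the row of `d` is `x` (then `d = c`) or `σ⁻¹ y` (then the column of `d` is `σ e x`, the row is not `x` and the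
column is not `y`); for any other row `σ'` and `σ` agree.  If `N = {b}`, `b ∈ A`: `d = b ≠ c`, third case.  If `N = cells X`: all other cells of
`N` are in other pairs of fibres (`CT`), so they are present in `σ`: first case (`d = c`) or second case (`b = d`). -/
def SB : Prop := CT → ∀ (m r s : ℕ) (A : Finset (Cl m r)) (c : Cl m r) (σ : Cfg m r), c ∉ A →
  σ ∈ Av (Fam m r s A) → Sw c σ ∉ Av (Fam m r s A) →
  (∃ X : Finset (Vx m r), Tv X ∧ X.card = s ∧ c ∈ cells X ∧ ∀ d ∈ (cells X).erase c, Pres σ d) ∨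
  (∃ (X : Finset (Vx m r)) (b : Cl m r), Tv X ∧ X.card = s ∧ b ∈ cells X ∧ b.1 = c.1 ∧
    b.2.1 ≠ c.2.1 ∧ b.2.2 ≠ c.2.2 ∧ (∀ d ∈ (cells X).erase b, Pres σ d) ∧
    Pres σ (c.1, b.2.1, c.2.2) ∧ Pres σ (c.1, c.2.1, b.2.2)) ∨
  (∃ b ∈ A, b.1 = c.1 ∧ b.2.1 ≠ c.2.1 ∧ b.2.2 ≠ c.2.2 ∧
    Pres σ (c.1, b.2.1, c.2.2) ∧ Pres σ (c.1, c.2.1, b.2.2))

/-- MP (conditional probabilities, 80 lines; uses `NM`, `LLc`, `PMc`).
PROOF.  `B = Fam m r s A`; `PMc` gives the hypotheses of `LLc`.  `S = {N ∈ B : ¬ CC M N}`, `U = {N ∈ B : CC M N}`, `S ∪ U = B`: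
`|Av B ∩ Ev M| ≤ |Av S ∩ Ev M| ≤ r^(-|M|) |Av S|` (`NM` (i)), `|Av S| ≤ 2^|M| |Av B|` (`LLc`, `PMc`).  Second part: the same with `NM` (ii) for
`insert a (insert b M)`, which has `|M| + 2` cells, and `r (r-1) ≥ r²/2`. -/
def MPc : Prop := ∀ (m r s : ℕ), Hy m r s → ∀ (T : Finset (Vx m r)), Thin T → ∀ A ⊆ cells T,
  (∀ M : Finset (Cl m r), Tr M →
    ((Av (Fam m r s A) ∩ Ev M).card : ℝ) ≤ (2 / r) ^ M.card * (Av (Fam m r s A)).card) ∧
  (∀ (M : Finset (Cl m r)) (a b : Cl m r), Tr M → (∀ x ∈ M, x.1 ≠ a.1) → a.1 = b.1 →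
    a.2.1 ≠ b.2.1 → a.2.2 ≠ b.2.2 →
    ((Av (Fam m r s A) ∩ Ev (insert a (insert b M))).card : ℝ) ≤
      2 * (2 / r) ^ (M.card + 2) * (Av (Fam m r s A)).card)

def MP : Prop := ND → NM → LLc → PMc → MPc

/-- ME (main estimate, 150 lines; uses `SA`, `SB`, `MPc`, `CU`, `CT`).
PROOF.  `B = Fam m r s A`, `C = s choose 2`, `ρ = 2^C (mr)^(s-2)/r^(C-1) ≤ 1/64`.  `|Av B| ≤ |{σ ∈ Av B : Sw c σ ∈ Av B}| + |bad|`, the first is at most
`r |Av B ∩ Ev {c}|` (`SA`).  Bad `σ` (`SB`), with `MPc`: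
(a) at most `∑_(X ∋ lo c, hi c) |Av B ∩ Ev ((cells X).erase c)| ≤ (mr)^(s-2) (2/r)^(C-1) |Av B| = (ρ/2) |Av B|`;
(b) for the at most `r²` cells `b` with `b.1 = c.1` and the `X ∋ lo b, hi b` (`CU`): `M = (cells X).erase b` (`C - 1` cells, `Tr`, none in the pair `c.1`),
`Ev (insert (c.1, b.2.1, c.2.2) (insert (c.1, c.2.1, b.2.2) M))`: together at most `r² (mr)^(s-2) · 2 (2/r)^(C+1) |Av B| = 4 ρ |Av B|`;
(c) for `b ∈ A`, `b.1 = c.1` (at most `(r/16)²` cells, since `A ⊆ cells T`), `M = ∅`: together at most `(r/16)² · 2 (2/r)² |Av B| = |Av B|/32`.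
Sum of (a), (b), (c): at most `(1/128 + 1/16 + 1/32) |Av B| ≤ |Av B|/2`. -/
def MEc : Prop := ∀ (m r s : ℕ), Hy m r s → ∀ (T : Finset (Vx m r)), Thin T → ∀ A ⊆ cells T,
  ∀ c ∈ cells T, c ∉ A →
  ((Av (Fam m r s A)).card : ℝ) ≤ 2 * r * (Av (Fam m r s A) ∩ Ev {c}).card

def ME : Prop := CU → CT → SA → SB → MPc → MEc

/-- MI (40 lines; uses `MEc`).
PROOF.  Induction on `A`: `Av (Fam (insert c A)) = Av (Fam A) \ Ev {c}`, so
`|Av (Fam (insert c A))| = |Av (Fam A)| - |Av (Fam A) ∩ Ev {c}| ≤ (1 - 1/(2r)) |Av (Fam A)|`. -/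
def MI : Prop := MEc → ∀ (m r s : ℕ), Hy m r s → ∀ (T : Finset (Vx m r)), Thin T →
  ∀ A ⊆ cells T, ((Av (Fam m r s A)).card : ℝ) ≤
    (1 - 1 / (2 * r)) ^ A.card * (Av (KB m r s)).card

/-- EX (existence, 100 lines; uses `MI`, `EC`, `LLc`, `PMc`).
PROOF.  `|Av (KB)| > 0`: `LLc` for `B = U = Fam m r s ∅ = KB m r s`, `S = ∅` (`T = ∅` in `PMc`), `Av ∅ = univ`.  Suppose every `σ ∈ Av KB` has a thin `T`
with `k` elements without present cells, i.e. `σ ∈ Av (Fam m r s (cells T))`.  Then `|Av KB| ≤ ∑_T |Av (Fam (cells T))| ≤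
(mr)^k (1 - 1/(2r))^L |Av KB|` with `L ≥ (16k² - rk)/32 ≥ k²/4` (`EC`; `r ≤ 8k` because `8 r log(mr) < k` and `mr ≥ 16`), and
`(1 - 1/(2r))^L ≤ exp(-L/(2r)) ≤ exp(-k²/(8r))`, `(mr)^k = exp(k log(mr))`: the product is `< 1`, contradiction. -/
def EX : Prop := MEc → MI → EC → LLc → PMc → ∀ (m r s k : ℕ), Hy m r s →
  8 * r * Real.log (m * r : ℕ) < k →
  ∃ σ ∈ Av (KB m r s), ∀ T : Finset (Vx m r), Thin T → T.card = k → ∃ c ∈ cells T, Pres σ c

/-! ## Part 4: graphs and numbers -/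

/-- TT (truncation, 60 lines).
PROOF.  In each fibre take `min (a_i, r/16)` vertices of `T` (`a_i` = number of vertices of `T` in the fibre, `a_i ≤ r`, `r/16 ≥ r/32 ≥ a_i/32` for the integer
part, as `r ≥ 16`); the union has at least `|T|/32 ≥ k` vertices; take `k` of them. -/
def TT : Prop := ∀ (m r k : ℕ) (T : Finset (Vx m r)), 16 ≤ r → 32 * k ≤ T.card →
  ∃ T' ⊆ T, Thin T' ∧ T'.card = k

/-- GC (50 lines).
PROOF.  A clique `X` with `s` vertices is in `Tv` (adjacent vertices are in different fibres: `(lo c).1 < (hi c).1`), so `cells X ∈ KB m r s`.  For `c ∈ cells X` the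
vertices `lo c ≠ hi c` are adjacent, so there is a present cell `c'` with the same ends, in the same order because `(lo c).1 < (hi c).1`, so `c' = c`. -/
def GC : Prop := ∀ (m r s : ℕ) (σ : Cfg m r), σ ∈ Av (KB m r s) → (Gr σ).CliqueFree s

/-- GI (30 lines; uses `TT`).
PROOF.  Let `T` be a clique with `32 k` vertices in the complement; `TT` gives a thin `T' ⊆ T` with `k` vertices; a present cell `c ∈ cells T'` gives two
adjacent vertices `lo c ≠ hi c` of `T`. -/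
def GI : Prop := TT → ∀ (m r k : ℕ) (σ : Cfg m r), 16 ≤ r →
  (∀ T : Finset (Vx m r), Thin T → T.card = k → ∃ c ∈ cells T, Pres σ c) →
  (Gr σ)ᶜ.CliqueFree (32 * k)

/-- DG (degrees, 120 lines).
PROOF.  In `Gr σ` every vertex `v` has exactly one neighbour in each fibre `i ≠ v.1` (`σ e v.2` or `(σ e).symm v.2`) and none in its own fibre.  Let
`V' = {v : v.1 ≠ the last fibre, or v.2 < n - (m-1) r}`, it has `n` vertices.  In the induced subgraph a vertex has exactly one neighbour in each of the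
fibres `i ≠ v.1`, `i ≠ last`, and at most one in the last fibre (exactly one of the two possibilities `m - 1`, `m - 2` for the degree; in the
last fibre `m - 1`).  Transport to `Fin n`. -/
def DG : Prop := ∀ (m r s t n : ℕ) (σ : Cfg m r), 1 ≤ m → (m - 1) * r < n → n ≤ m * r →
  (Gr σ).CliqueFree s → (Gr σ)ᶜ.CliqueFree t →
  ∃ G : SimpleGraph (Fin n), G.CliqueFree s ∧ Gᶜ.CliqueFree t ∧
    ∀ v w : Fin n, Nat.card (G.neighborSet v) ≤ Nat.card (G.neighborSet w) + 1

/-- NU (numbers, 100 lines).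
PROOF.  `L = log t > 0`, `Z = t/(40000 s L)`, `2 ≤ t ≤ n ≤ Z^((s+1)/2)`, so `Z > 1`, `t > 40000 s L`.  `r = ⌊100 Z⌋ ≥ 99 Z`, `r ≤ t`, `m = ⌈n/r⌉`, `k = ⌊t/32⌋`.
`mr < n + r ≤ 2n`.  `s L ≥ 2`, so `log Z ≤ L - 10`, `log(mr) ≤ log 2 + ((s+1)/2)(L - 10) ≤ ((s+1)/2) L`;
`8 r log(mr) ≤ 8 · (t/(400 s L)) · ((s+1)/2) L = t (s+1)/(100 s) ≤ t/75 < t/32 - 1 < k`.  `C = s choose 2`, `2 (C - 1) = (s+1)(s-2)`:
`(mr)^(s-2) ≤ 2^(s-2) Z^(C-1)`, `r^(C-1) ≥ (64 Z)^(C-1)` and `64 · 2^C · 2^(s-2) ≤ 64^(C-1)` since `s + 10 ≤ 5 C`. -/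
def NU : Prop := ∀ (s t n : ℕ), 3 ≤ s → 2 ≤ t → t ≤ n →
  (n : ℝ) ≤ ((t : ℝ) / (40000 * s * Real.log t)) ^ (((s : ℝ) + 1) / 2) →
  ∃ m r k : ℕ, Hy m r s ∧ (m - 1) * r < n ∧ n ≤ m * r ∧ 8 * r * Real.log (m * r : ℕ) < k ∧
    32 * k ≤ t

end Pool.Agent.Helper95.OD
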