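import Pool.Agent.Helper95.OD.St

/-! # Project OD (MP_e0fa86_co): the theorem from the twenty modules -/

set_option autoImplicit false

namespace Pool.Agent.Helper95.OD

open Finset

theorem core (hND : ND) (hNM : NM) (hLL : LL) (hCU : CU) (hCT : CT) (hCB : CB) (hEC : EC)
    (hPC : PC) (hPM : PM) (hSA : SA) (hSB : SB) (hMP : MP) (hME : ME) (hMI : MI) (hEX : EX)
    (hTT : TT) (hGC : GC) (hGI : GI) (hDG : DG) (hNU : NU) :
    ∀ s t n : ℕ, 3 ≤ s → 2 ≤ t →
      (n : ℝ) ≤ ((t : ℝ) / (40000 * s * Real.log t)) ^ (((s : ℝ) + 1) / 2) →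
      ∃ G : SimpleGraph (Fin n), G.CliqueFree s ∧ Gᶜ.CliqueFree t ∧
        ∀ v w : Fin n, Nat.card (G.neighborSet v) ≤ Nat.card (G.neighborSet w) + 1 := by
  intro s t n hs ht hn
  rcases Nat.lt_or_ge n t with h | h
  · refine ⟨⊥, ?_, ?_, ?_⟩
    · exact SimpleGraph.cliqueFree_bot (by omega)
    · exact SimpleGraph.cliqueFree_of_card_lt (by simpa using h)
    · intro v w
      have : (⊥ : SimpleGraph (Fin n)).neighborSet v = ∅ := by
        ext x; simp
      rw [this]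
      simp
  · obtain ⟨m, r, k, hy, h1, h2, h3, h4⟩ := hNU s t n hs ht h hn
    have hLLc : LLc := hLL hND hNM
    have hPMc : PMc := hPM hCU hCT hCB hPC
    have hMPc : MPc := hMP hND hNM hLLc hPMc
    have hMEc : MEc := hME hCU hCT hSA hSB hMPc
    obtain ⟨σ, hσ, hT⟩ := hEX hMEc hMI hEC hLLc hPMc m r s k hy h3
    have g1 : (Gr σ).CliqueFree s := hGC m r s σ hσ
    have g2 : (Gr σ)ᶜ.CliqueFree t := (hGI hTT m r k σ hy.2.2.1 hT).mono h4
    exact hDG m r s t n σ hy.1 h1 h2 g1 g2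

end Pool.Agent.Helper95.OD
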