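import Pool.Agent.Helper95.OD.St

/-! # Module NU of project OD (MP_e0fa86_co): numbers -/

set_option autoImplicit false

namespace Pool.Agent.Helper95.OD.NUm

open Pool.Agent.Helper95.OD

theorem choose_id (s : ℕ) (hs : 3 ≤ s) :
    2 * (s.choose 2 - 1) = (s + 1) * (s - 2) ∧ s + 10 ≤ 5 * s.choose 2 ∧ 3 ≤ s.choose 2 := by
  obtain ⟨u, rfl⟩ : ∃ u, s = u + 3 := ⟨s - 3, by omega⟩
  have h : (u + 3).choose 2 * 2 = (u + 3) * (u + 2) := by
    rw [Nat.choose_two_right]
    have : (u + 3) * (u + 3 - 1) = (u + 3) * (u + 2) := by simp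
    rw [this]
    apply Nat.div_mul_cancel
    have := Nat.even_mul_succ_self (u + 2)
    rw [mul_comm] at this
    exact this.two_dvd
  have h3 : u + 3 - 2 = u + 1 := by omega
  rw [h3]
  refine ⟨?_, ?_, ?_⟩
  · have h1 : 1 ≤ (u + 3).choose 2 := by nlinarith
    zify [h1]
    zify at h
    nlinarith
  · nlinarith
  · nlinarith

theorem hNU : NU := by
  intro s t n hs ht htn hn
  have hsR : (3 : ℝ) ≤ s := by exact_mod_cast hs
  have htR : (2 : ℝ) ≤ t := by exact_mod_cast ht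
  have htnR : (t : ℝ) ≤ n := by exact_mod_cast htn
  have hL2 : Real.log 2 ≤ Real.log t := Real.log_le_log (by norm_num) htR
  have hl2 := Real.log_two_gt_d9
  set L : ℝ := Real.log t with hLdef
  have hL : (0.69 : ℝ) < L := by linarith
  have hsL : (2 : ℝ) ≤ s * L := by nlinarith
  have hD : (0 : ℝ) < 40000 * s * L := by nlinarith
  set Z : ℝ := (t : ℝ) / (40000 * s * L) with hZdef
  have hZ0 : 0 < Z := by
    rw [hZdef]; positivity
  have hn2 : (2 : ℝ) ≤ n := htR.trans htnR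
  have hZ1 : 1 < Z := by
    by_contra hc
    have hc' : Z ≤ 1 := not_lt.1 hc
    have h1 : Z ^ (((s : ℝ) + 1) / 2) ≤ 1 := Real.rpow_le_one hZ0.le hc' (by positivity)
    linarith
  have htZ : (t : ℝ) = 40000 * s * L * Z := by
    rw [hZdef]; field_simp
  have hr1 : ((⌊100 * Z⌋₊ : ℕ) : ℝ) ≤ 100 * Z := Nat.floor_le (by positivity)
  have hr2 : 100 * Z < (⌊100 * Z⌋₊ : ℕ) + 1 := Nat.lt_floor_add_one _
  set r : ℕ := ⌊100 * Z⌋₊ with hrdef
  have hr3 : 64 * Z ≤ r := by linarith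
  have hr16 : 16 ≤ r := by
    have : (16 : ℝ) ≤ r := by linarith
    exact_mod_cast this
  have hrt : r ≤ t := by
    have h1 : 100 * Z ≤ 40000 * s * L * Z := by nlinarith [mul_le_mul_of_nonneg_right hsL hZ0.le]
    have : (r : ℝ) ≤ t := by linarith
    exact_mod_cast this
  have hr0 : 0 < r := by omega
  set q : ℕ := (n - 1) / r with hq
  have hq1 : q * r ≤ n - 1 := Nat.div_mul_le_self _ _
  have hq2 : n - 1 < (q + 1) * r := by
    have := Nat.lt_div_mul_add (a := n - 1) hr0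
    calc n - 1 < (n - 1) / r * r + r := this
      _ = (q + 1) * r := by rw [hq]; ring
  have hn2N : 2 ≤ n := ht.trans htn
  have hmr2 : (q + 1) * r ≤ 2 * n := by
    have : (q + 1) * r = q * r + r := by ring
    omega
  have hmr2R : (((q + 1) * r : ℕ) : ℝ) ≤ 2 * n := by exact_mod_cast hmr2
  have hmr0 : (0 : ℝ) < (((q + 1) * r : ℕ) : ℝ) := by
    have : 0 < (q + 1) * r := by positivity
    exact_mod_cast this
  refine ⟨q + 1, r, t / 32, ⟨Nat.succ_pos q, hs, hr16, ?_⟩, ?_, ?_, ?_, ?_⟩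
  · -- size condition
    obtain ⟨h1, h2, h3⟩ := choose_id s hs
    set C := s.choose 2 with hC
    have key : (64 * 2 ^ C * ((q + 1) * r : ℕ) ^ (s - 2) : ℝ) ≤ (r : ℝ) ^ (C - 1) := by
      have e1 : (((q + 1) * r : ℕ) : ℝ) ≤ 2 * Z ^ (((s : ℝ) + 1) / 2) := by linarith
      have e2 : ((((q + 1) * r : ℕ) : ℝ)) ^ (s - 2) ≤ (2 * Z ^ (((s : ℝ) + 1) / 2)) ^ (s - 2) :=
        pow_le_pow_left₀ hmr0.le e1 _
      have e3 : (2 * Z ^ (((s : ℝ) + 1) / 2)) ^ (s - 2) = 2 ^ (s - 2) * Z ^ (C - 1) := by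
        rw [mul_pow, ← Real.rpow_natCast (Z ^ (((s : ℝ) + 1) / 2)) (s - 2),
          ← Real.rpow_mul hZ0.le, ← Real.rpow_natCast Z (C - 1)]
        congr 2
        have h1' : (2 * ((C - 1 : ℕ) : ℝ)) = ((s : ℝ) + 1) * ((s - 2 : ℕ) : ℝ) := by
          exact_mod_cast h1
        linarith
      have e4 : (64 * Z) ^ (C - 1) ≤ (r : ℝ) ^ (C - 1) :=
        pow_le_pow_left₀ (by positivity) hr3 _
      have e5 : (64 * 2 ^ C * 2 ^ (s - 2) : ℝ) ≤ 64 ^ (C - 1) := by
        have : (64 : ℝ) = 2 ^ 6 := by norm_num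
        rw [this, ← pow_mul, ← pow_add, ← pow_add]
        apply pow_le_pow_right₀ (by norm_num)
        omega
      calc (64 * 2 ^ C * ((q + 1) * r : ℕ) ^ (s - 2) : ℝ)
          ≤ 64 * 2 ^ C * (2 ^ (s - 2) * Z ^ (C - 1)) := by
            rw [← e3]
            exact mul_le_mul_of_nonneg_left e2 (by positivity)
        _ = (64 * 2 ^ C * 2 ^ (s - 2)) * Z ^ (C - 1) := by ring
        _ ≤ 64 ^ (C - 1) * Z ^ (C - 1) := mul_le_mul_of_nonneg_right e5 (by positivity)
        _ = (64 * Z) ^ (C - 1) := by rw [mul_pow]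
        _ ≤ _ := e4
    exact_mod_cast key
  · simp only [Nat.add_sub_cancel]
    omega
  · omega
  · -- the logarithm
    have f1 : Real.log (((q + 1) * r : ℕ) : ℝ) ≤ Real.log (2 * n) :=
      Real.log_le_log hmr0 hmr2R
    have f2 : Real.log (2 * n) = Real.log 2 + Real.log n :=
      Real.log_mul (by norm_num) (by linarith)
    have f3 : Real.log n ≤ (((s : ℝ) + 1) / 2) * Real.log Z := by
      rw [← Real.log_rpow hZ0]
      exact Real.log_le_log (by linarith) hn
    have f4 : Real.log Z ≤ L - Real.log 2 := by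
      rw [hZdef, Real.log_div (by linarith) hD.ne', ← hLdef]
      have : Real.log 2 ≤ Real.log (40000 * s * L) :=
        Real.log_le_log (by norm_num) (by nlinarith)
      linarith
    have f5 : Real.log (((q + 1) * r : ℕ) : ℝ) ≤ (((s : ℝ) + 1) / 2) * L := by
      have : (((s : ℝ) + 1) / 2) * Real.log Z ≤ (((s : ℝ) + 1) / 2) * (L - Real.log 2) :=
        mul_le_mul_of_nonneg_left f4 (by positivity)
      nlinarith
    have f6 : (t : ℝ) / 32 - 1 < ((t / 32 : ℕ) : ℝ) := by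
      have : t < 32 * (t / 32 + 1) := by omega
      have : (t : ℝ) < 32 * (((t / 32 : ℕ) : ℝ) + 1) := by exact_mod_cast this
      linarith
    have f7 : 8 * (r : ℝ) * Real.log (((q + 1) * r : ℕ) : ℝ) ≤
        8 * (100 * Z) * ((((s : ℝ) + 1) / 2) * L) := by
      apply mul_le_mul _ f5 (Real.log_nonneg _) (by positivity)
      · linarith
      · have : 1 ≤ (q + 1) * r := by
          have : 0 < (q + 1) * r := by positivity
          omega
        exact_mod_cast this
    have f8 : 8 * (100 * Z) * ((((s : ℝ) + 1) / 2) * L) ≤ (t : ℝ) / 75 := by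
      rw [htZ]
      have : 0 ≤ L * Z * (s - 3) := by
        apply mul_nonneg (by positivity)
        linarith
      nlinarith
    have f9 : (80000 : ℝ) ≤ t := by
      rw [htZ]
      nlinarith [mul_le_mul hsL hZ1.le (by norm_num) (by linarith)]
    push_cast at f7 f6 ⊢
    linarith
  · omega

end Pool.Agent.Helper95.OD.NUm
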