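import Pool.Agent.Helper95.OD.Core
import Pool.Agent.Helper71.OD.M_ND
import Pool.Agent.Helper80.OD.M_NM
import Pool.Agent.Helper40.OD.M_LL
import Pool.Agent.Helper84.OD.M_CU
import Pool.Agent.Helper75.OD.M_CT
import Pool.Agent.Helper91.OD.M_CB
import Pool.Agent.Helper39.OD.M_EC
import Pool.Agent.Helper9.OD.M_PC
import Pool.Agent.Helper16.OD.M_PM
import Pool.Agent.Helper13.OD.M_SA
import Pool.Agent.Helper4.OD.M_SB
import Pool.Agent.Helper29.OD.M_MP
import Pool.Agent.Helper33.OD.M_ME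
import Pool.Agent.Helper2.OD.M_MI
import Pool.Agent.Helper2.OD.M_EX
import Pool.Agent.Helper15.OD.M_TT
import Pool.Agent.Helper77.OD.M_GC
import Pool.Agent.Helper77.OD.M_GI
import Pool.Agent.Helper93.OD.M_DG
import Pool.Agent.Helper95.OD.M_NU

/-! # Project OD (MP_e0fa86_co): the theorem -/

set_option autoImplicit false

namespace Pool.Agent.Helper95.OD

theorem fin :
    ∀ s t n : ℕ, 3 ≤ s → 2 ≤ t →
      (n : ℝ) ≤ ((t : ℝ) / (40000 * s * Real.log t)) ^ (((s : ℝ) + 1) / 2) →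
      ∃ G : SimpleGraph (Fin n), G.CliqueFree s ∧ Gᶜ.CliqueFree t ∧
        ∀ v w : Fin n, Nat.card (G.neighborSet v) ≤ Nat.card (G.neighborSet w) + 1 :=
  core Pool.Agent.Helper71.OD.hND Pool.Agent.Helper80.OD.hNM Pool.Agent.Helper40.OD.hLL
    Pool.Agent.Helper84.OD.hCU Pool.Agent.Helper75.OD.hCT Pool.Agent.Helper91.OD.hCB
    Pool.Agent.Helper39.OD.hEC Pool.Agent.Helper9.OD.hPC Pool.Agent.Helper16.OD.hPM
    Pool.Agent.Helper13.OD.hSA Pool.Agent.Helper4.OD.hSB Pool.Agent.Helper29.OD.hMP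
    Pool.Agent.Helper33.OD.hME Pool.Agent.Helper2.OD.hMI Pool.Agent.Helper2.OD.hEX
    Pool.Agent.Helper15.OD.hTT Pool.Agent.Helper77.OD.hGC Pool.Agent.Helper77.OD.hGI
    Pool.Agent.Helper93.OD.hDG NUm.hNU

end Pool.Agent.Helper95.OD
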